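import Mathlib

set_option autoImplicit false

open Set

namespace Pool.Agent.H8.Oc

universe u v

/-- orthocompact: every open cover has an open refinement all of whose subfamilies have open
intersection -/
def Ortho (X : Type u) [TopologicalSpace X] : Prop :=
  ∀ 𝒰 : Set (Set X), (∀ u ∈ 𝒰, IsOpen u) → ⋃₀ 𝒰 = Set.univ →
        ∃ 𝒱 : Set (Set X), (∀ v ∈ 𝒱, IsOpen v) ∧ ⋃₀ 𝒱 = Set.univ ∧
          (∀ v ∈ 𝒱, ∃ u ∈ 𝒰, v ⊆ u) ∧ (∀ 𝒲 ⊆ 𝒱, IsOpen (⋂₀ 𝒲))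

/-- countably metacompact -/
def CMeta (X : Type u) [TopologicalSpace X] : Prop :=
  ∀ O : ℕ → Set X, (∀ n, IsOpen (O n)) → (⋃ n, O n) = Set.univ →
    ∃ 𝒱 : Set (Set X), (∀ v ∈ 𝒱, IsOpen v) ∧ ⋃₀ 𝒱 = Set.univ ∧
      (∀ v ∈ 𝒱, ∃ n, v ⊆ O n) ∧ (∀ x, {v ∈ 𝒱 | x ∈ v}.Finite)

structure TR {X : Type u} [TopologicalSpace X] (U : X → Set X) : Prop where
  op : ∀ x, IsOpen (U x)
  rfl : ∀ x, x ∈ U x
  tr : ∀ x y, y ∈ U x → U y ⊆ U x

theorem o1 {X : Type u} [TopologicalSpace X] (h : Ortho X) (G : X → Set X)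
    (hG : ∀ x, IsOpen (G x)) (hx : ∀ x, x ∈ G x) : ∃ U, TR U ∧ ∀ x, ∃ x', U x ⊆ G x' := by
  obtain ⟨𝒱, h1, h2, h3, h4⟩ := h (range G) (by rintro _ ⟨x, rfl⟩; exact hG x)
    (by
      rw [eq_univ_iff_forall]; intro x
      exact ⟨G x, ⟨x, rfl⟩, hx x⟩)
  refine ⟨fun x => ⋂₀ {v ∈ 𝒱 | x ∈ v}, ⟨?_, ?_, ?_⟩, ?_⟩
  · intro x; exact h4 _ (fun v hv => hv.1)
  · intro x v hv; exact hv.2
  · intro x y hy z hz v hv
    exact hz v ⟨hv.1, hy v hv⟩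
  · intro x
    have : x ∈ ⋃₀ 𝒱 := by rw [h2]; trivial
    obtain ⟨v, hv, hxv⟩ := this
    obtain ⟨_, ⟨x', rfl⟩, hsub⟩ := h3 v hv
    exact ⟨x', fun z hz => hsub (hz v ⟨hv, hxv⟩)⟩

theorem o2 {X : Type u} [TopologicalSpace X] (𝒰 : Set (Set X)) (U : X → Set X) (hU : TR U)
    (hr : ∀ x, ∃ u ∈ 𝒰, U x ⊆ u) :
    ∃ 𝒱 : Set (Set X), (∀ v ∈ 𝒱, IsOpen v) ∧ ⋃₀ 𝒱 = Set.univ ∧
          (∀ v ∈ 𝒱, ∃ u ∈ 𝒰, v ⊆ u) ∧ (∀ 𝒲 ⊆ 𝒱, IsOpen (⋂₀ 𝒲)) := by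
  refine ⟨range U, ?_, ?_, ?_, ?_⟩
  · rintro _ ⟨x, rfl⟩; exact hU.op x
  · rw [eq_univ_iff_forall]; intro x
    exact ⟨U x, ⟨x, rfl⟩, hU.rfl x⟩
  · rintro _ ⟨x, rfl⟩; exact hr x
  · intro 𝒲 h𝒲
    rw [isOpen_iff_forall_mem_open]
    intro x hx
    refine ⟨U x, ?_, hU.op x, hU.rfl x⟩
    intro z hz w hw
    obtain ⟨y, rfl⟩ := h𝒲 hw
    exact hU.tr y x (hx _ hw) hz

variable {X : Type u} {Y : Type v} [TopologicalSpace X] [TopologicalSpace Y]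

def NN (f : X → Y) (U : X → Set X) (y : Y) : Set Y :=
  {z | ∀ w, f w = z → ∃ x, f x = y ∧ w ∈ U x}

theorem nn_tr {f : X → Y} (hf : IsClosedMap f) {U : X → Set X} (hU : TR U) : TR (NN f U) := by
  refine ⟨?_, ?_, ?_⟩
  · intro y
    have h1 : NN f U y = (f '' (⋃ x ∈ {x | f x = y}, U x)ᶜ)ᶜ := by
      ext z
      simp only [NN, mem_setOf_eq, mem_compl_iff, mem_image, mem_iUnion, not_exists, not_and]
      constructor
      · intro h w hw hwz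
        obtain ⟨x, hx, hwx⟩ := h w hwz
        exact hw x hx hwx
      · intro h w hw
        by_contra hcon
        push Not at hcon
        exact h w hcon hw
    rw [h1]
    refine (hf _ ?_).isOpen_compl
    rw [isClosed_compl_iff]
    exact isOpen_biUnion (fun x _ => hU.op x)
  · intro y w hw
    exact ⟨w, hw, hU.rfl w⟩
  · intro y z hz t ht w hw
    obtain ⟨x, hx, hwx⟩ := ht w hw
    obtain ⟨x', hx', hxx'⟩ := hz x hx
    exact ⟨x', hx', hU.tr _ _ hxx' hwx⟩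

def GG (f : X → Y) (𝒰 : Set (Set Y)) (k : ℕ) (U : X → Set X) : Prop :=
  ∀ y, ∀ S : Finset X, S.Nonempty → S.card ≤ k → (∀ x ∈ S, f x = y) →
    ∃ v ∈ 𝒰, ∀ x ∈ S, U x ⊆ f ⁻¹' v

theorem step (hX : Ortho X) {f : X → Y} (hc : Continuous f) (hf : IsClosedMap f)
    (hfin : ∀ y, (f ⁻¹' {y}).Finite) {𝒰 : Set (Set Y)} (h𝒰 : ∀ u ∈ 𝒰, IsOpen u)
    {k : ℕ} {U : X → Set X} (hU : TR U) (hk : GG f 𝒰 (k + 1) U) :
    ∃ U', TR U' ∧ (∀ x, U' x ⊆ U x) ∧ GG f 𝒰 (k + 2) U' := by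
  classical
  let 𝒮 : X → Set (Finset X) := fun x => {S | S.Nonempty ∧ S.card ≤ k + 1 ∧ ∀ x' ∈ S, f x' = f x}
  have h𝒮 : ∀ x, (𝒮 x).Finite := by
    intro x
    refine ((hfin (f x)).toFinset.powerset.finite_toSet).subset ?_
    intro S hS
    simp only [Finset.coe_powerset, mem_preimage, mem_powerset_iff]
    intro x' hx'
    simpa using hS.2.2 x' hx'
  have hex : ∀ x (S : Finset X), ∃ v ∈ 𝒰 ∪ {univ}, S ∈ 𝒮 x → (v ∈ 𝒰 ∧ ∀ x' ∈ S, U x' ⊆ f ⁻¹' v) := by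
    intro x S
    by_cases hS : S ∈ 𝒮 x
    · obtain ⟨v, hv, hv2⟩ := hk (f x) S hS.1 hS.2.1 hS.2.2
      exact ⟨v, Or.inl hv, fun _ => ⟨hv, hv2⟩⟩
    · exact ⟨univ, Or.inr rfl, fun h => absurd h hS⟩
  choose ξ hξ1 hξ2 using hex
  let G : X → Set X := fun x => (U x ∩ f ⁻¹' (NN f U (f x))) ∩ ⋂ S ∈ 𝒮 x, f ⁻¹' (ξ x S)
  obtain ⟨U'', hU'', hr⟩ := o1 hX G (by
    intro x
    refine ((hU.op x).inter (((nn_tr hf hU).op _).preimage hc)).inter ?_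
    refine (h𝒮 x).isOpen_biInter (fun S hS => ?_)
    exact (h𝒰 _ (hξ2 x S hS).1).preimage hc) (by
    intro x
    refine ⟨⟨hU.rfl x, (nn_tr hf hU).rfl _⟩, ?_⟩
    simp only [mem_iInter]
    intro S hS
    obtain ⟨x', hx'⟩ := hS.1
    have h1 := (hξ2 x S hS).2 x' hx' (hU.rfl x')
    simp only [mem_preimage] at h1 ⊢
    rwa [hS.2.2 x' hx'] at h1)
  refine ⟨fun x => U'' x ∩ U x, ⟨?_, ?_, ?_⟩, fun x => inter_subset_right, ?_⟩
  · intro x; exact (hU''.op x).inter (hU.op x)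
  · intro x; exact ⟨hU''.rfl x, hU.rfl x⟩
  · intro x y hy z hz
    exact ⟨hU''.tr _ _ hy.1 hz.1, hU.tr _ _ hy.2 hz.2⟩
  · intro z S hSne hScard hSz
    rcases Nat.lt_or_ge (k + 1) S.card with hlt | hle
    · obtain ⟨w, hw⟩ := hSne
      obtain ⟨x, hx⟩ := hr w
      have hwG : w ∈ G x := hx (hU''.rfl w)
      have hN : f w ∈ NN f U (f x) := hwG.1.2
      have hcover : ∀ w' ∈ S, ∃ x', f x' = f x ∧ w' ∈ U x' := fun w' hw' =>
        hN w' (by rw [hSz w' hw', hSz w hw])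
      choose! φ hφ1 hφ2 using hcover
      set S0 := (S.erase w).image φ with hS0
      have hcard : (S.erase w).card = k + 1 := by
        rw [Finset.card_erase_of_mem hw]; omega
      have hmem : S0 ∈ 𝒮 x := by
        refine ⟨?_, ?_, ?_⟩
        · rw [hS0, Finset.image_nonempty, ← Finset.card_pos, hcard]; omega
        · exact Finset.card_image_le.trans (by omega)
        · intro x' hx'
          rw [hS0, Finset.mem_image] at hx'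
          obtain ⟨w', hw', rfl⟩ := hx'
          exact hφ1 w' (Finset.mem_of_mem_erase hw')
      refine ⟨ξ x S0, (hξ2 x S0 hmem).1, ?_⟩
      intro w' hw' t ht
      by_cases hww : w' = w
      · subst hww
        have h1 : t ∈ G x := hx ht.1
        have h2 := h1.2
        simp only [mem_iInter] at h2
        exact h2 S0 hmem
      · have h1 : φ w' ∈ S0 := by
          rw [hS0]; exact Finset.mem_image_of_mem _ (Finset.mem_erase.mpr ⟨hww, hw'⟩)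
        exact (hξ2 x S0 hmem).2 _ h1 (hU.tr _ _ (hφ2 w' hw') ht.2)
    · obtain ⟨v, hv, hv2⟩ := hk z S hSne hle hSz
      exact ⟨v, hv, fun x hx t ht => hv2 x hx ht.2⟩

theorem main (f : X → Y) (hc : Continuous f) (hf : IsClosedMap f) (hsurj : Function.Surjective f)
    (hfin : ∀ y, (f ⁻¹' {y}).Finite) (hX : Ortho X)
    (hcase : (∃ n : ℕ, ∀ y, (f ⁻¹' {y}).ncard ≤ n) ∨ CMeta X) : Ortho Y := by
  classical
  intro 𝒰 h𝒰 hcov
  -- initial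
  have h0 : ∃ U : X → Set X, TR U ∧ GG f 𝒰 1 U := by
    have : ∀ y : Y, ∃ v ∈ 𝒰, y ∈ v := fun y => by
      have : y ∈ ⋃₀ 𝒰 := by rw [hcov]; trivial
      exact this
    choose V hV hVy using this
    obtain ⟨U, hU, hr⟩ := o1 hX (fun x => f ⁻¹' (V (f x))) (fun x => (h𝒰 _ (hV _)).preimage hc)
      (fun x => hVy _)
    refine ⟨U, hU, ?_⟩
    intro y S hne hcard hS
    obtain ⟨x, hx⟩ := hne
    obtain ⟨x', hx'⟩ := hr x
    refine ⟨V (f x'), hV _, ?_⟩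
    intro t ht
    have : t = x := Finset.card_le_one.mp hcard t ht x hx
    rw [this]; exact hx'
  obtain ⟨U0, hU0, hG0⟩ := h0
  have hstep : ∀ n (p : {U : X → Set X // TR U ∧ GG f 𝒰 (n + 1) U}),
      ∃ q : {U : X → Set X // TR U ∧ GG f 𝒰 (n + 1 + 1) U}, ∀ x, q.1 x ⊆ p.1 x := by
    rintro n ⟨U, hU, hG⟩
    obtain ⟨U', h1, h2, h3⟩ := step hX hc hf hfin h𝒰 hU hG
    exact ⟨⟨U', h1, h3⟩, h2⟩
  choose nx hnx using hstep
  let q : (n : ℕ) → {U : X → Set X // TR U ∧ GG f 𝒰 (n + 1) U} := fun n =>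
    Nat.rec (motive := fun n => {U : X → Set X // TR U ∧ GG f 𝒰 (n + 1) U}) ⟨U0, hU0, hG0⟩
      (fun n p => nx n p) n
  have hq : ∀ n x, (q (n + 1)).1 x ⊆ (q n).1 x := fun n x => hnx n (q n) x
  have hmono : ∀ m n, m ≤ n → ∀ x, (q n).1 x ⊆ (q m).1 x := by
    intro m n hmn
    induction n, hmn using Nat.le_induction with
    | base => intro x; exact subset_rfl
    | succ n _ ih => intro x; exact (hq n x).trans (ih x)
  -- final argument from a good transitive neighbornet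
  have hfinal : ∀ U : X → Set X, TR U →
      (∀ y, ∃ v ∈ 𝒰, ∀ x, f x = y → U x ⊆ f ⁻¹' v) →
      ∃ 𝒱 : Set (Set Y), (∀ v ∈ 𝒱, IsOpen v) ∧ ⋃₀ 𝒱 = Set.univ ∧
          (∀ v ∈ 𝒱, ∃ u ∈ 𝒰, v ⊆ u) ∧ (∀ 𝒲 ⊆ 𝒱, IsOpen (⋂₀ 𝒲)) := by
    intro U hU hgood
    refine o2 𝒰 (NN f U) (nn_tr hf hU) ?_
    intro y
    obtain ⟨v, hv, hv2⟩ := hgood y
    refine ⟨v, hv, ?_⟩
    intro z hz
    obtain ⟨w, rfl⟩ := hsurj z
    obtain ⟨x, hx, hwx⟩ := hz w rfl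
    exact hv2 x hx hwx
  have hfib : ∀ n y, (f ⁻¹' {y}).ncard ≤ n + 1 → ∃ v ∈ 𝒰, ∀ x, f x = y → (q n).1 x ⊆ f ⁻¹' v := by
    intro n y hn
    obtain ⟨v, hv, hv2⟩ := (q n).2.2 y (hfin y).toFinset (by
      obtain ⟨x, hx⟩ := hsurj y
      exact ⟨x, by simpa using hx⟩) (by
      rw [← Set.ncard_eq_toFinset_card _ (hfin y)]; exact hn) (by
      intro x hx; simpa using hx)
    exact ⟨v, hv, fun x hx => hv2 x (by simpa using hx)⟩
  rcases hcase with ⟨n, hn⟩ | hM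
  · exact hfinal (q n).1 (q n).2.1 (fun y => hfib n y ((hn y).trans (Nat.le_succ n)))
  · -- countably metacompact case
    let nn : X → ℕ := fun x => (f ⁻¹' {f x}).ncard
    obtain ⟨T, hT, hTr⟩ := o1 hX
      (fun x => f ⁻¹' (NN f (q (nn x)).1 (f x)))
      (fun x => ((nn_tr hf (q (nn x)).2.1).op _).preimage hc)
      (fun x => (nn_tr hf (q (nn x)).2.1).rfl _)
    let K : X → Set ℕ := fun w => {n | ∃ x, nn x = n ∧ T w ⊆ f ⁻¹' (NN f (q (nn x)).1 (f x))}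
    have hKne : ∀ w, (K w).Nonempty := fun w => by
      obtain ⟨x, hx⟩ := hTr w
      exact ⟨nn x, x, rfl, hx⟩
    let m : X → ℕ := fun w => sInf (K w)
    have hmK : ∀ w, m w ∈ K w := fun w => Nat.sInf_mem (hKne w)
    have hmle : ∀ w w', w' ∈ T w → m w' ≤ m w := by
      intro w w' hw'
      refine Nat.sInf_le ?_
      obtain ⟨x, hx, hx2⟩ := hmK w
      exact ⟨x, hx, (hT.tr _ _ hw').trans hx2⟩
    obtain ⟨𝒲, h𝒲1, h𝒲2, h𝒲3, h𝒲4⟩ := hM (fun n => {w | m w ≤ n}) (by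
      intro n
      rw [isOpen_iff_forall_mem_open]
      intro w hw
      exact ⟨T w, fun w' hw' => (hmle w w' hw').trans hw, hT.op w, hT.rfl w⟩) (by
      rw [eq_univ_iff_forall]; intro w
      exact mem_iUnion.mpr ⟨m w, le_refl (m w)⟩)
    choose! c hcW using h𝒲3
    let s : X → ℕ := fun w => (h𝒲4 w).toFinset.sup c
    have hms : ∀ w, m w ≤ s w := by
      intro w
      have : w ∈ ⋃₀ 𝒲 := by rw [h𝒲2]; trivial
      obtain ⟨W, hW, hwW⟩ := this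
      have h1 : m w ≤ c W := hcW W hW hwW
      exact h1.trans (Finset.le_sup (f := c) (by simpa using ⟨hW, hwW⟩))
    have hsmono : ∀ w w', w' ∈ ⋂₀ {W ∈ 𝒲 | w ∈ W} → s w ≤ s w' := by
      intro w w' hw'
      refine Finset.sup_mono ?_
      intro W hW
      simp only [Finite.mem_toFinset, mem_setOf_eq] at hW ⊢
      exact ⟨hW.1, hw' W hW⟩
    refine hfinal (fun w => (T w ∩ ⋂₀ {W ∈ 𝒲 | w ∈ W}) ∩ (q (s w)).1 w) ⟨?_, ?_, ?_⟩ ?_
    · intro w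
      refine ((hT.op w).inter ?_).inter ((q (s w)).2.1.op w)
      exact (h𝒲4 w).isOpen_sInter (fun W hW => h𝒲1 W hW.1)
    · intro w
      exact ⟨⟨hT.rfl w, fun W hW => hW.2⟩, (q (s w)).2.1.rfl w⟩
    · intro w w' hw' t ht
      refine ⟨⟨hT.tr _ _ hw'.1.1 ht.1.1, ?_⟩, ?_⟩
      · intro W hW
        exact ht.1.2 W ⟨hW.1, hw'.1.2 W hW⟩
      · have h1 := hmono _ _ (hsmono w w' hw'.1.2) w' ht.2
        exact (q (s w)).2.1.tr _ _ hw'.2 h1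
    · intro z
      obtain ⟨w1, hw1, hmin⟩ := (hfin z).exists_minimalFor m _ (by
        obtain ⟨x, hx⟩ := hsurj z
        exact ⟨x, hx⟩)
      have hmin' : ∀ w, f w = z → m w1 ≤ m w := by
        intro w hw
        rcases le_total (m w1) (m w) with h | h
        · exact h
        · exact hmin hw h
      obtain ⟨x, hx, hx2⟩ := hmK w1
      obtain ⟨v, hv, hv2⟩ := hfib (nn x) (f x) (Nat.le_succ _)
      refine ⟨v, hv, ?_⟩
      intro w hw t ht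
      have hN : f w1 ∈ NN f (q (nn x)).1 (f x) := hx2 (hT.rfl w1)
      obtain ⟨x', hx', hwx'⟩ := hN w (by rw [hw]; exact hw1.symm)
      have h1 : nn x ≤ s w := by
        rw [hx]; exact (hmin' w hw).trans (hms w)
      have h2 : t ∈ (q (nn x)).1 w := hmono _ _ h1 w ht.2
      exact hv2 x' hx' ((q (nn x)).2.1.tr _ _ hwx' h2)

end Pool.Agent.H8.Oc
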